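import Pool.Agent.K7.H12.UI.Conc

/-!
# Project UI: job MOVE
-/

set_option autoImplicit false

namespace Pool.Agent.K7.H47.UI

open Pool.Agent.K7.H12.UI

theorem mu_mono {X V : Type} [Finite X] [Finite V] (F : SimpleGraph X) (G G' : SimpleGraph V)
    (E E' : (X → V) → Prop)
    (h : ∀ φ, Function.Injective φ → (∀ x y, F.Adj x y → G.Adj (φ x) (φ y)) → E φ →
      (∀ x y, F.Adj x y → G'.Adj (φ x) (φ y)) ∧ E' φ) : mu F G E ≤ mu F G' E' := by
  unfold mu
  apply div_le_div_of_nonneg_right _ (by positivity)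
  have : (homs F G E).ncard ≤ (homs F G' E').ncard := by
    apply Set.ncard_le_ncard _ (Set.toFinite _)
    rintro φ ⟨h1, h2, h3⟩
    obtain ⟨h4, h5⟩ := h φ h1 h2 h3
    exact ⟨h1, h4, h5⟩
  exact_mod_cast this

theorem move (hD : StDiff) (hB : StBoth1) (hC : StChain) (hS : StSplit) : StMove := by
  intro X V _ _ F G R Z v v' hv hvZ hvZ' f u gain K W hW h1 h2 hu hu' huv huZ hgain hlt
  classical
  have : Nonempty V := ⟨v⟩
  have hfin : W.Finite := Set.toFinite _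
  set I : Finset V := hfin.toFinset with hI
  have hIc : (I : Set V) = W := by rw [hI]; exact hfin.coe_toFinset
  have hmem : ∀ y, y ∈ I ↔ y ∈ W := by
    intro y; rw [hI, Set.Finite.mem_toFinset]
  set U : Set V := nb G v ∩ nb G v' with hU
  have key := hC X V F G v {v} (E1 R Z v v') (Finset.mem_singleton_self v)
    (by
      rintro φ - hφ a ha
      rw [Finset.mem_singleton] at ha
      obtain ⟨x, -, hx⟩ := hφ.1
      exact ⟨x, by rw [hx, ha]⟩) V I id f U
    (by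
      intro i hi
      rw [hmem] at hi
      obtain ⟨w1, w2, w3, w4⟩ := (hW i).1 hi
      obtain ⟨g1, g2, g3, g4, g5, -⟩ := h1 i hi
      have hiv : i ≠ v := fun h => G.loopless.irrefl v (by rw [h] at w1; exact w1)
      have hfv' : f i ≠ v' := fun h => G.loopless.irrefl v' (by rw [h] at g1; exact g1)
      refine ⟨fun hc => w2 hc.2, fun hc => g2 hc.1, ?_, ?_, ?_, ?_⟩
      · rw [Finset.mem_singleton]; exact hiv
      · rw [Finset.mem_singleton]; exact g3
      · intro a ha hav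
        rw [Finset.mem_singleton] at ha
        exact absurd ha hav
      · intro φ hφ τ hτ
        have t1 : τ v = v := hτ v (Ne.symm hiv) (Ne.symm g3)
        have t2 : τ v' = v' := hτ v' (Ne.symm w3) (Ne.symm hfv')
        have t3 : ∀ z ∈ Z, τ z = z := by
          intro z hz
          apply hτ
          · rintro rfl; exact w4 hz
          · rintro rfl; exact g4 hz
        refine ⟨?_, ?_, ?_⟩
        · obtain ⟨x, hxR, hx⟩ := hφ.1
          exact ⟨x, hxR, by simp [hx, t1]⟩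
        · rintro ⟨x, hx⟩
          apply hφ.2.1
          refine ⟨x, τ.injective ?_⟩
          rw [t2]; exact hx
        · rintro z hz ⟨x, hx⟩
          apply hφ.2.2 z hz
          refine ⟨x, τ.injective ?_⟩
          rw [t3 z hz]; exact hx)
    (Set.injOn_id _) (by rw [hIc]; exact h2)
    (by
      intro i hi j hj he
      rw [hmem] at hi hj
      have h3 := (h1 j hj).2.1
      rw [← he] at h3
      exact h3 ((hW i).1 hi).1)
  rw [Set.image_id, Finset.card_singleton, hIc] at key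
  have hsum : ∑ i ∈ I, ((sd G (id i) (f i)).ncard : ℝ) ≤ (W.ncard : ℝ) * K := by
    have h3 : ∑ i ∈ I, ((sd G (id i) (f i)).ncard : ℝ) ≤ ∑ _i ∈ I, K :=
      Finset.sum_le_sum fun i hi => (h1 i ((hmem i).1 hi)).2.2.2.2.2
    refine h3.trans (le_of_eq ?_)
    rw [Finset.sum_const, nsmul_eq_mul, ← hIc, Set.ncard_coe_finset]
  have herr : 0 ≤ err X V 3 := by unfold err; positivity
  obtain ⟨s1, s2, -⟩ := hS X V F G v (E1 R Z v v')
  have hunot : u ∉ U ∪ f '' W := by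
    rintro (hh | ⟨y, hy, hyu⟩)
    · exact hu' hh.1
    · exact (h1 y hy).2.2.2.2.1 hyu
  have s3 := s2 (U ∪ f '' W) u hunot huv
  have s4 : mu F (upd G v (insert u (U ∪ f '' W))) (E1 R Z v v') ≤
      mu F (upd G v (nb G v')) (E1 R Z v v') := by
    apply s1
    intro y hy
    rcases hy with rfl | hy | ⟨z, hz, rfl⟩
    · exact hu
    · exact hy.2
    · exact (h1 z hz).1
  have s5 : mu F (upd G v (nb G v)) (E1 R Z v v') ≤ mu F (upd G v (U ∪ W)) (E1 R Z v v') := by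
    apply mu_mono
    intro φ _ hφ hE
    refine ⟨?_, hE⟩
    have hin : ∀ x, φ x ∈ nb G v → φ x ∈ U ∪ W := by
      intro x hx
      by_cases hx' : φ x ∈ nb G v'
      · exact Or.inl ⟨hx, hx'⟩
      · refine Or.inr ((hW _).2 ⟨hx, hx', ?_, ?_⟩)
        · intro h; exact hE.2.1 ⟨x, h⟩
        · intro h; exact hE.2.2 _ h ⟨x, rfl⟩
    intro x y hxy
    rcases hφ x y hxy with h | ⟨g1, g2, g3⟩ | ⟨g1, g2, g3⟩
    · exact Or.inl h
    · exact Or.inr (Or.inl ⟨g1, g2, hin y g3⟩)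
    · exact Or.inr (Or.inr ⟨g1, g2, hin x g3⟩)
  have hd := (hD X V F G R Z v v' hv hvZ hvZ').1
  have hb := hB X V F G R Z v v' hv hvZ hvZ'
  have h5 : (∑ i ∈ I, ((sd G (id i) (f i)).ncard : ℝ)) * err X V 3 ≤
      (W.ncard : ℝ) * K * err X V 3 := mul_le_mul_of_nonneg_right hsum herr
  rw [← Finset.sum_mul] at key
  norm_num at key
  simp only [id] at h5
  have h6 : ((W.ncard : ℝ) * K + ((sd G v v').ncard : ℝ)) * err X V 3 =
      (W.ncard : ℝ) * K * err X V 3 + ((sd G v v').ncard : ℝ) * err X V 3 := by ring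
  rw [h6] at hlt
  linarith

/-- a move with an extra element -/
theorem glue1 {V : Type} [Finite V] (A A' : Set V) (hlt : A.ncard < A'.ncard) :
    ∃ (f : V → V) (u : V), (∀ y ∈ A, f y ∈ A') ∧ Set.InjOn f A ∧ u ∈ A' ∧ ∀ y ∈ A, f y ≠ u := by
  have hne : A'.Nonempty := by
    rw [← Set.ncard_pos (Set.toFinite _)]; omega
  obtain ⟨u0, hu0⟩ := hne
  have : Nonempty V := ⟨u0⟩
  obtain ⟨f, hf1, hf2⟩ : ∃ f : V → V, A ⊆ f ⁻¹' A' ∧ Set.InjOn f A := by
    apply Set.Finite.exists_injOn_of_encard_le (Set.toFinite _)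
    rw [← (Set.toFinite A).cast_ncard_eq, ← (Set.toFinite A').cast_ncard_eq]
    exact_mod_cast hlt.le
  obtain ⟨u, hu, hu'⟩ := Set.exists_mem_notMem_of_ncard_lt_ncard
      (lt_of_le_of_lt (Set.ncard_image_le (f := f) (Set.toFinite _)) hlt) (Set.toFinite _)
  exact ⟨f, u, hf1, hf2, hu, fun y hy he => hu' ⟨y, hy, he⟩⟩

theorem Ok.mono {P : Par} {A A' B : ℕ} (hok : Ok P A B) (hA : A' ≤ A) : Ok P A' B where
  blk_lt := hok.blk_lt
  blk_mono := hok.blk_mono
  blk_card := hok.blk_card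
  even := hok.even
  hr := hA.trans hok.hr
  hb := (Nat.mul_le_mul_right _ hA).trans hok.hb
  hB := (Nat.mul_le_mul_right _ (Nat.mul_le_mul_right _ hA)).trans hok.hB

/-- comparison by a move of bulk vertices to bulk vertices -/
theorem bulk_lt (hM : StMove) (hLB : StLB1) (hSz : StSize) (X : Type) [Finite X]
    (F : SimpleGraph X) (R : Set X) (hR : ∃ x ∈ R, ∃ y, F.Adj x y) :
    ∃ A0 : ℕ, ∀ (P : Par) (B : ℕ), Ok P A0 B → ∀ (v v' : Vt P), v ≠ v' →
      ∀ (f : Vt P → Vt P) (u : Vt P),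
      (∀ y, y ∈ nb (gph P) v → y ∉ nb (gph P) v' → y ≠ v' →
        (f y ∈ nb (gph P) v' ∧ f y ∉ nb (gph P) v ∧ f y ≠ v ∧ f y ≠ u) ∧
          (∃ p, y = bk p) ∧ (∃ p, f y = bk p)) →
      Set.InjOn f {y | y ∈ nb (gph P) v ∧ y ∉ nb (gph P) v' ∧ y ≠ v'} →
      u ∈ nb (gph P) v' → u ∉ nb (gph P) v → u ≠ v →
      D F (gph P) R ∅ v < D F (gph P) R ∅ v' := by
  obtain ⟨c, hc, A1, hA1⟩ := hLB X F R hR
  obtain ⟨C, hC, A2, hA2⟩ := hSz
  set k : ℝ := (Nat.card X : ℝ) with hkdef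
  have hk0 : (0 : ℝ) < k := by
    obtain ⟨x, -, -⟩ := hR
    have h0 : Nonempty X := ⟨x⟩
    have : 0 < Nat.card X := Nat.card_pos
    rw [hkdef]; exact_mod_cast this
  refine ⟨A1 + A2 + 1 + ⌈(C * C + 2 * C) * k / c⌉₊ + ⌈2 * C / c⌉₊, ?_⟩
  intro P B hok v v' hne f u f1 f2 f3 f3' f4
  have ok1 := hA1 P B (Ok.mono hok (by omega))
  obtain ⟨z1, z2, z3, -, -, z6, z7, -, -, -, z11, z12⟩ := hA2 P B (Ok.mono hok (by omega))
  set A : ℕ := A1 + A2 + 1 + ⌈(C * C + 2 * C) * k / c⌉₊ + ⌈2 * C / c⌉₊ with hAdef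
  have hAr1 : (C * C + 2 * C) * k < A * c := by
    have h1 : (C * C + 2 * C) * k / c ≤ (⌈(C * C + 2 * C) * k / c⌉₊ : ℝ) := Nat.le_ceil _
    have h2 : ((⌈(C * C + 2 * C) * k / c⌉₊ : ℕ) : ℝ) + 1 ≤ (A : ℝ) := by
      have : ⌈(C * C + 2 * C) * k / c⌉₊ + 1 ≤ A := by omega
      exact_mod_cast this
    have h3 : (C * C + 2 * C) * k / c < A := by linarith
    rwa [div_lt_iff₀ hc] at h3
  have hAr2 : 2 * C ≤ A * c := by
    have h1 : 2 * C / c ≤ (⌈2 * C / c⌉₊ : ℝ) := Nat.le_ceil _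
    have h2 : ((⌈2 * C / c⌉₊ : ℕ) : ℝ) ≤ (A : ℝ) := by
      have : ⌈2 * C / c⌉₊ ≤ A := by omega
      exact_mod_cast this
    have h3 : 2 * C / c ≤ A := by linarith
    rwa [div_le_iff₀ hc] at h3
  have ha1 : 1 ≤ P.r := le_trans (by omega) hok.hr
  have hbA : A ≤ P.b := by
    refine le_trans ?_ hok.hb
    exact Nat.le_mul_of_pos_right _ (by positivity)
  set n : ℝ := (Nat.card (Vt P) : ℝ) with hn
  have hn0 : 0 < n := by rw [hn]; exact_mod_cast z2
  have hnm : (P.r : ℝ) * P.m ≤ n := by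
    refine le_trans (le_of_eq ?_) z6
    push_cast; ring
  have hmb : (P.b : ℝ) * B ≤ P.m := by exact_mod_cast z3
  have hbA' : (A : ℝ) ≤ P.b := by exact_mod_cast hbA
  have ha1' : (1 : ℝ) ≤ P.r := by exact_mod_cast ha1
  have hB0 : (0 : ℝ) ≤ B := Nat.cast_nonneg _
  have hm0 : (0 : ℝ) < P.m := by exact_mod_cast z1
  have hbb : (A : ℝ) * P.r ^ 2 ≤ P.b := by exact_mod_cast hok.hb
  have hrA : (A : ℝ) ≤ P.r := by exact_mod_cast hok.hr
  have hA0 : (1 : ℝ) ≤ A := by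
    have : 1 ≤ A := by omega
    exact_mod_cast this
  have hnb : (P.r : ℝ) * (P.b * B) ≤ n := by
    refine le_trans ?_ hnm
    gcongr
  set G := gph P with hG
  have hmiss : ∀ w : Vt P, ({y | (∃ p, y = bk p) ∧ y ∉ nb G w}.ncard : ℝ) ≤ C * (P.r * B) := z12
  have herr : 0 < err X (Vt P) 2 := by
    unfold err
    have : 0 < k / n := div_pos hk0 hn0
    positivity
  have herr3 : err X (Vt P) 3 = err X (Vt P) 2 * (k / n) := by
    unfold err
    rw [pow_succ]
  set W : Set (Vt P) := {y | y ∈ nb G v ∧ y ∉ nb G v' ∧ y ≠ v'} with hWdef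
  have huv' : u ≠ v' := fun h => G.loopless.irrefl v' (by rw [h] at f3; exact f3)
  refine hM X (Vt P) F G R ∅ v v' hne (Set.notMem_empty _) (Set.notMem_empty _) f u
    (c * err X (Vt P) 2) (C * P.r) W ?_ ?_ f2 f3 f3' f4 (Set.notMem_empty _) ?_ ?_
  · intro y
    rw [hWdef]
    constructor
    · rintro ⟨h1, h2, h3⟩
      exact ⟨h1, h2, h3, Set.notMem_empty _⟩
    · rintro ⟨h1, h2, h3, -⟩
      exact ⟨h1, h2, h3⟩
  · rintro y ⟨h1, h2, h3⟩
    obtain ⟨⟨g1, g2, g3, g4⟩, ⟨p, hp⟩, ⟨q, hq⟩⟩ := f1 y h1 h2 h3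
    refine ⟨g1, g2, g3, Set.notMem_empty _, g4, ?_⟩
    rw [hq, hp]
    exact z7 p q
  · apply ok1 ∅ v v' u _ (by simp) hne f4 huv' (Set.notMem_empty _) (Set.notMem_empty _)
    · exact Set.mem_insert _ _
    · have hsub : {y : Vt P | (∃ p, y = bk p) ∧
          y ∉ insert u (nb G v ∩ nb G v' ∪ f '' W)} ⊆
          {y | (∃ p, y = bk p) ∧ y ∉ nb G v} ∪ {y | (∃ p, y = bk p) ∧ y ∉ nb G v'} := by
        rintro y ⟨h1, h3⟩
        by_cases h4 : y ∈ nb G v
        · right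
          refine ⟨h1, fun h5 => h3 ?_⟩
          exact Set.mem_insert_of_mem _ (Or.inl ⟨h4, h5⟩)
        · left
          exact ⟨h1, h4⟩
      have h1 : ({y : Vt P | (∃ p, y = bk p) ∧
          y ∉ insert u (nb G v ∩ nb G v' ∪ f '' W)}.ncard : ℝ) ≤
          C * (P.r * B) + C * (P.r * B) := by
        have h2 := (Set.ncard_le_ncard hsub (Set.toFinite _)).trans (Set.ncard_union_le _ _)
        have h3 := hmiss v
        have h4 := hmiss v'
        have h5 : ({y : Vt P | (∃ p, y = bk p) ∧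
          y ∉ insert u (nb G v ∩ nb G v' ∪ f '' W)}.ncard : ℝ) ≤
          ({y | (∃ p, y = bk p) ∧ y ∉ nb G v}.ncard : ℝ) +
          ({y | (∃ p, y = bk p) ∧ y ∉ nb G v'}.ncard : ℝ) := by
          exact_mod_cast h2
        linarith
      refine h1.trans ?_
      have h2 : C * (P.r * B) + C * (P.r * B) = (2 * C) * (P.r * B) := by ring
      rw [h2]
      have h3 : (2 * C) * (P.r * B) ≤ (A * c) * ((P.r : ℝ) * B) :=
        mul_le_mul_of_nonneg_right hAr2 (by positivity)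
      have h4 : (A * c) * ((P.r : ℝ) * B) ≤ (P.b * c) * ((P.r : ℝ) * B) := by gcongr
      have h5 : (P.b * c) * ((P.r : ℝ) * B) = c * (P.r * (P.b * B)) := by ring
      have h6 : c * (P.r * (P.b * B)) ≤ c * n := mul_le_mul_of_nonneg_left hnb hc.le
      linarith
  · have hcard : (W.ncard : ℝ) ≤ C * (P.r * B) := by
      refine le_trans ?_ (hmiss v')
      have : W.ncard ≤ {y | (∃ p, y = bk p) ∧ y ∉ nb G v'}.ncard := by
        apply Set.ncard_le_ncard _ (Set.toFinite _)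
        rintro y ⟨h1, h2, h3⟩
        exact ⟨(f1 y h1 h2 h3).2.1, h2⟩
      exact_mod_cast this
    have hsd : ((sd G v v').ncard : ℝ) ≤ C * (P.m + P.r * B) := z11 v v'
    rw [herr3]
    have hkn : 0 < k / n := div_pos hk0 hn0
    have h1 : ((W.ncard : ℝ) * (C * P.r) + ((sd G v v').ncard : ℝ)) *
        (err X (Vt P) 2 * (k / n)) ≤
        ((C * (P.r * B)) * (C * P.r) + C * (P.m + P.r * B)) * (err X (Vt P) 2 * (k / n)) := by
      gcongr
    refine lt_of_le_of_lt h1 ?_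
    have h2 : ((C * (P.r * B)) * (C * P.r) + C * (P.m + P.r * B)) * (err X (Vt P) 2 * (k / n)) =
        ((((C * (P.r * B)) * (C * P.r) + C * (P.m + P.r * B)) * k) / n) * err X (Vt P) 2 := by ring
    rw [h2]
    refine mul_lt_mul_of_pos_right ?_ herr
    rw [div_lt_iff₀ hn0]
    -- everything is at most a multiple of `m`
    have m1 : (P.r : ℝ) ^ 2 * B ≤ P.m := by
      refine le_trans ?_ hmb
      have : (P.r : ℝ) ^ 2 ≤ P.b := by
        refine le_trans ?_ hbb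
        have : (0 : ℝ) ≤ (P.r : ℝ) ^ 2 := by positivity
        nlinarith
      gcongr
    have m2 : (P.r : ℝ) * B ≤ P.m := by
      refine le_trans ?_ m1
      have : (P.r : ℝ) ≤ (P.r : ℝ) ^ 2 := by nlinarith
      gcongr
    have h3 : (C * (P.r * B)) * (C * P.r) + C * (P.m + P.r * B) ≤ (C * C + 2 * C) * P.m := by
      have e1 : (C * (P.r * B)) * (C * P.r) = C * C * ((P.r : ℝ) ^ 2 * B) := by ring
      have e2 : C * C * ((P.r : ℝ) ^ 2 * B) ≤ C * C * P.m := by gcongr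
      have e3 : C * ((P.r : ℝ) * B) ≤ C * P.m := by gcongr
      rw [e1]
      linarith
    have h4 : ((C * (P.r * B)) * (C * P.r) + C * (P.m + P.r * B)) * k ≤
        ((C * C + 2 * C) * k) * P.m := by
      have := mul_le_mul_of_nonneg_right h3 hk0.le
      linarith
    have h5 : ((C * C + 2 * C) * k) * P.m < (A * c) * P.m := mul_lt_mul_of_pos_right hAr1 hm0
    have h6 : (A * c) * (P.m : ℝ) ≤ c * (P.r * P.m) := by
      have : (A * c) * (P.m : ℝ) = c * (A * P.m) := by ring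
      rw [this]
      gcongr
    have h7 : c * ((P.r : ℝ) * P.m) ≤ c * n := mul_le_mul_of_nonneg_left hnm hc.le
    linarith

end Pool.Agent.K7.H47.UI
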