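import Pool.Agent.K7.H47.UI.Move

/-!
# Project UI: jobs T (row hubs) and W (column hubs)
-/

set_option autoImplicit false

namespace Pool.Agent.K7.H47.UI

open Pool.Agent.K7.H12.UI

theorem ncard_fin_lt (r l : ℕ) : {i : Fin (r + 1) | l < (i : ℕ)}.ncard = r - l := by
  rw [← Set.ncard_image_of_injective _ Fin.val_injective]
  have : (Fin.val '' {i : Fin (r + 1) | l < (i : ℕ)}) = ((Finset.Ioc l r : Finset ℕ) : Set ℕ) := by
    ext x
    simp only [Set.mem_image, Set.mem_ofPred_eq, Finset.coe_Ioc, Set.mem_Ioc]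
    constructor
    · rintro ⟨i, hi, rfl⟩
      exact ⟨hi, by omega⟩
    · rintro ⟨h1, h2⟩
      exact ⟨⟨x, by omega⟩, h1, rfl⟩
  rw [this, Set.ncard_coe_finset, Nat.card_Ioc]

/-- the bulk vertices missed by the row hub `(c, l)` -/
def MM (P : Par) (c l : ℕ) : Set (Vt P) :=
  {y | ∃ p : Bk P, y = bk p ∧ P.blk p.1.2 = c ∧ l < (p.1.1 : ℕ)}

theorem ncard_MM (P : Par) (c l K : ℕ) (hK : {j : ℕ | j < P.m ∧ P.blk j = c}.ncard = K) :
    (MM P c l).ncard = (P.r - l) * K := by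
  set g : Fin (P.r + 1) × Fin P.m → Vt P := fun s =>
    if h : (s.1 : ℕ) = 0 → P.m ≤ 2 * (s.2 : ℕ) then Sum.inl ⟨s, h⟩ else Sum.inr (Sum.inr s.2)
    with hg
  have e1 : MM P c l = g ''
        ({i : Fin (P.r + 1) | l < (i : ℕ)} ×ˢ {j : Fin P.m | P.blk j = c}) := by
    ext y
    simp only [MM, Set.mem_ofPred_eq, Set.mem_image, Set.mem_prod]
    constructor
    · rintro ⟨p, rfl, h1, h2⟩
      refine ⟨p.1, ⟨h2, h1⟩, ?_⟩
      simp only [hg]
      rw [dif_pos p.2]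
      rfl
    · rintro ⟨⟨i, j⟩, ⟨h1, h2⟩, rfl⟩
      simp only at h1 h2
      have h3 : ((i : ℕ) = 0 → P.m ≤ 2 * (j : ℕ)) := fun h => by omega
      refine ⟨⟨(i, j), h3⟩, ?_, h2, h1⟩
      simp only [hg]
      rw [dif_pos h3]
      rfl
  rw [e1, Set.InjOn.ncard_image, Set.ncard_prod, ncard_fin_lt]
  · congr 1
    rw [← hK, ← Set.ncard_image_of_injective _ Fin.val_injective]
    congr 1
    ext x
    simp only [Set.mem_image, Set.mem_ofPred_eq]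
    constructor
    · rintro ⟨i, hi, rfl⟩
      exact ⟨i.2, hi⟩
    · rintro ⟨h1, h2⟩
      exact ⟨⟨x, h1⟩, h2, rfl⟩
  · rintro ⟨i, j⟩ ⟨h1, -⟩ ⟨i', j'⟩ ⟨h1', -⟩ hij
    simp only [Set.mem_ofPred_eq] at h1 h1'
    have h3 : ((i : ℕ) = 0 → P.m ≤ 2 * (j : ℕ)) := fun h => by omega
    have h3' : ((i' : ℕ) = 0 → P.m ≤ 2 * (j' : ℕ)) := fun h => by omega
    simp only [hg] at hij
    rw [dif_pos h3, dif_pos h3'] at hij
    simpa using hij

theorem arith_T (r b B c c' l l' : ℕ) (hc' : c' < b) (hB : r * b < B) (hr : l' < r)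
    (hlt : l < l' ∨ (l = l' ∧ c' < c)) : (r - l') * (B + c') < (r - l) * (B + c) := by
  rcases hlt with h | ⟨rfl, h⟩
  · obtain ⟨d, hd⟩ : ∃ d, r - l = (r - l') + 1 + d := ⟨r - l - (r - l') - 1, by omega⟩
    have h1 : (r - l') * c' ≤ r * b := Nat.mul_le_mul (Nat.sub_le _ _) hc'.le
    rw [hd]
    nlinarith [Nat.zero_le ((r - l') * c), Nat.zero_le (d * (B + c))]
  · exact Nat.mul_lt_mul_of_pos_left (by omega) (by omega)

theorem mem_nb_tt (P : Par) (c : Fin P.b) (l : Fin P.r) (y : Vt P) :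
    y ∈ nb (gph P) (tt c l) ↔ tt c l ≠ y ∧ ¬ Mis P (.t c l) (lab y) := Iff.rfl

theorem mem_nb_ww (P : Par) (j : Fin P.m) (y : Vt P) :
    y ∈ nb (gph P) (ww j) ↔ ww j ≠ y ∧ ¬ Mis P (.w j) (lab y) := Iff.rfl

theorem diff_tt (P : Par) (c c' : Fin P.b) (l l' : Fin P.r) (y : Vt P) :
    (y ∈ nb (gph P) (tt c l) ∧ y ∉ nb (gph P) (tt c' l') ∧ y ≠ tt c' l') ↔
      (y ∈ MM P c' l' ∧ y ∉ MM P c l) := by
  rw [mem_nb_tt, mem_nb_tt]
  rcases y with p | ⟨c1, l1⟩ | j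
  · simp only [MM, Set.mem_ofPred_eq, lab, Mis]
    constructor
    · rintro ⟨⟨h1, h2⟩, h3, h4⟩
      have h5 : P.blk p.1.2 = c' ∧ (l' : ℕ) < p.1.1 := by
        by_contra h6
        exact h3 ⟨h4.symm, h6⟩
      refine ⟨⟨p, rfl, h5⟩, ?_⟩
      rintro ⟨q, hq, h6⟩
      have : p = q := Sum.inl_injective hq
      subst this
      exact h2 h6
    · rintro ⟨⟨q, hq, h5⟩, h6⟩
      have : p = q := Sum.inl_injective hq
      subst this
      refine ⟨⟨by simp [tt], fun h => h6 ⟨p, rfl, h⟩⟩, fun h => h.2 h5, by simp [tt]⟩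
  · simp only [MM, Set.mem_ofPred_eq, lab, Mis]
    constructor
    · rintro ⟨-, h3, h4⟩
      exact absurd ⟨h4.symm, fun h => h⟩ h3
    · rintro ⟨⟨q, hq, -⟩, -⟩
      simp [bk] at hq
  · simp only [MM, Set.mem_ofPred_eq, lab, Mis]
    constructor
    · rintro ⟨⟨-, h2⟩, -⟩
      exact absurd trivial h2
    · rintro ⟨⟨q, hq, -⟩, -⟩
      simp [bk] at hq

theorem stT (hM : StMove) (hLB : StLB1) (hSz : StSize) : StT := by
  intro X _ F R hR
  obtain ⟨A0, hA0⟩ := bulk_lt hM hLB hSz X F R hR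
  refine ⟨A0 + 2, ?_⟩
  intro P B hok c c' l l' hlt
  have hA2 : 2 ≤ A0 + 2 := by omega
  have hr2 : A0 + 2 ≤ P.r := hok.hr
  have hrb : P.r * P.b < B := by
    refine lt_of_lt_of_le ?_ hok.hB
    have hb0 : 0 < P.b := lt_of_le_of_lt (Nat.zero_le _) c.2
    have h1 : 0 < P.r * P.b := Nat.mul_pos (by omega) hb0
    calc P.r * P.b < 2 * (P.r * P.b) := by omega
      _ ≤ (A0 + 2) * (P.r * P.b) := Nat.mul_le_mul_right _ (by omega)
      _ = (A0 + 2) * P.r * P.b := by ring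
  have hlt' : (l : ℕ) < l' ∨ ((l : ℕ) = l' ∧ (c' : ℕ) < c) := by
    rcases hlt with h1 | ⟨h1, h2⟩
    · exact Or.inl h1
    · exact Or.inr ⟨by rw [h1], h2⟩
  have hne : tt c l ≠ tt c' l' := by
    intro he
    simp only [tt, Sum.inr.injEq, Sum.inl.injEq, Prod.mk.injEq] at he
    rcases hlt with h1 | ⟨-, h1⟩
    · exact absurd (he.2 ▸ h1) (lt_irrefl _)
    · exact absurd (he.1 ▸ h1) (lt_irrefl _)
  have n1 := ncard_MM P c l _ (hok.blk_card c c.2)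
  have n2 := ncard_MM P c' l' _ (hok.blk_card c' c'.2)
  have ar := arith_T P.r P.b B c c' l l' c'.2 hrb l'.2 hlt'
  have hcard : (MM P c' l' \ MM P c l).ncard < (MM P c l \ MM P c' l').ncard := by
    rw [← Set.ncard_lt_ncard_iff_ncard_sdiff_lt_ncard_sdiff (Set.toFinite _) (Set.toFinite _)]
    rw [n1, n2]
    exact ar
  obtain ⟨f, u, g1, g2, g3, g4⟩ := glue1 _ _ hcard
  have hbulk : ∀ (c l : ℕ) (y : Vt P), y ∈ MM P c l → ∃ p, y = bk p := by
    rintro c l y ⟨p, hp, -⟩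
    exact ⟨p, hp⟩
  have d1 := diff_tt P c c' l l'
  have d2 := diff_tt P c' c l' l
  refine hA0 P B (Ok.mono hok (by omega)) (tt c l) (tt c' l') hne f u ?_ ?_ ?_ ?_ ?_
  · intro y h1 h2 h3
    have h4 := (d1 y).1 ⟨h1, h2, h3⟩
    have h5 := g1 y h4
    have h6 := (d2 (f y)).2 h5
    exact ⟨⟨h6.1, h6.2.1, h6.2.2, g4 y h4⟩, hbulk _ _ _ h4.1, hbulk _ _ _ h5.1⟩
  · intro y hy z hz hyz
    exact g2 ((d1 y).1 hy) ((d1 z).1 hz) hyz
  · exact ((d2 u).2 g3).1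
  · exact ((d2 u).2 g3).2.1
  · exact ((d2 u).2 g3).2.2

/-- a bulk vertex is moved to the column `j` if this is possible -/
def mv {P : Par} (j : Fin P.m) : Vt P → Vt P
  | Sum.inl p => if h : (p.1.1 : ℕ) = 0 → P.m ≤ 2 * (j : ℕ) then Sum.inl ⟨(p.1.1, j), h⟩ else
      Sum.inl p
  | y => y

theorem stW (hM : StMove) (hLB : StLB1) (hSz : StSize) : StW := by
  intro X _ F R hR
  obtain ⟨A0, hA0⟩ := bulk_lt hM hLB hSz X F R hR
  refine ⟨A0, ?_⟩
  intro P B hok j j' hjj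
  have hjn : (j : ℕ) < j' := hjj
  have hjm : (j' : ℕ) < P.m := j'.2
  obtain ⟨e, he⟩ := hok.even
  -- the difference
  have hdiff : ∀ y, y ∈ nb (gph P) (ww j') → y ∉ nb (gph P) (ww j) → y ≠ ww j →
      ∃ p : Bk P, y = bk p ∧ p.1.2 = j := by
    intro y h1 h2 h3
    rw [mem_nb_ww] at h1 h2
    have h4 : Mis P (.w j) (lab y) := by
      by_contra h4
      exact h2 ⟨h3.symm, h4⟩
    rcases y with p | ⟨c, l⟩ | jj
    · simp only [lab, Mis] at h4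
      exact ⟨p, rfl, Fin.ext h4⟩
    · exact absurd (by simp [lab, Mis]) h1.2
    · exfalso
      apply h1.2
      simp only [lab, Mis] at h4 ⊢
      omega
  have hmv : ∀ p : Bk P, p.1.2 = j → ∃ h : (p.1.1 : ℕ) = 0 → P.m ≤ 2 * (j' : ℕ),
      mv j' (bk p) = bk ⟨(p.1.1, j'), h⟩ := by
    intro p hp
    have h : (p.1.1 : ℕ) = 0 → P.m ≤ 2 * (j' : ℕ) := by
      intro h0
      have := p.2 h0
      rw [hp] at this
      omega
    refine ⟨h, ?_⟩
    show (if h : (p.1.1 : ℕ) = 0 → P.m ≤ 2 * (j' : ℕ) then Sum.inl ⟨(p.1.1, j'), h⟩ else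
      Sum.inl p) = _
    rw [dif_pos h]
    rfl
  have hne : ww j' ≠ ww j := by
    intro he
    simp only [ww, Sum.inr.injEq] at he
    exact absurd (he ▸ hjj) (lt_irrefl _)
  -- the extra vertex
  obtain ⟨u, hu1, hu2, hu3, hu4⟩ : ∃ u : Vt P, u ∈ nb (gph P) (ww j) ∧ u ∉ nb (gph P) (ww j') ∧
      u ≠ ww j' ∧ ∀ p : Bk P, p.1.2 = j → mv j' (bk p) ≠ u := by
    by_cases hcase : (j : ℕ) < e ∧ e ≤ (j' : ℕ)
    · have hb : (((0 : Fin (P.r + 1)), j').1 : ℕ) = 0 → P.m ≤ 2 * (((0 : Fin (P.r + 1)), j').2 : ℕ) := by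
        intro _
        show P.m ≤ 2 * (j' : ℕ)
        omega
      refine ⟨bk ⟨(0, j'), hb⟩, ?_, ?_, ?_, ?_⟩
      · rw [mem_nb_ww]
        refine ⟨by simp [ww, bk], ?_⟩
        show ¬ ((j' : ℕ) = j)
        omega
      · rw [mem_nb_ww]
        rintro ⟨-, h⟩
        exact h (show (j' : ℕ) = j' from rfl)
      · simp [ww, bk]
      · intro p hp h
        obtain ⟨h5, h6⟩ := hmv p hp
        rw [h6] at h
        have h7 : (⟨(p.1.1, j'), h5⟩ : Bk P) = ⟨(0, j'), hb⟩ := Sum.inl_injective h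
        have h8 : p.1.1 = 0 := congrArg (fun q : Bk P => q.1.1) h7
        have h9 := p.2 (by rw [h8]; rfl)
        rw [hp] at h9
        omega
    · have hu : (P.m - 2 - j : ℕ) < P.m := by omega
      refine ⟨ww ⟨P.m - 2 - j, hu⟩, ?_, ?_, ?_, ?_⟩
      · rw [mem_nb_ww]
        refine ⟨?_, ?_⟩
        · simp only [ww, ne_eq, Sum.inr.injEq, Fin.ext_iff]
          omega
        · show ¬ (P.m < j + (P.m - 2 - j) + 2)
          omega
      · rw [mem_nb_ww]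
        rintro ⟨-, h⟩
        apply h
        show P.m < j' + (P.m - 2 - j) + 2
        omega
      · simp only [ww, ne_eq, Sum.inr.injEq, Fin.ext_iff]
        omega
      · intro p hp h
        obtain ⟨h5, h6⟩ := hmv p hp
        rw [h6] at h
        simp [bk, ww] at h
  refine hA0 P B hok (ww j') (ww j) hne (mv j') u ?_ ?_ hu1 hu2 hu3
  · intro y h1 h2 h3
    obtain ⟨p, rfl, hp⟩ := hdiff y h1 h2 h3
    obtain ⟨h5, h6⟩ := hmv p hp
    refine ⟨⟨?_, ?_, ?_, hu4 p hp⟩, ⟨p, rfl⟩, ⟨_, h6⟩⟩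
    · rw [h6, mem_nb_ww]
      refine ⟨by simp [bk, ww], ?_⟩
      show ¬ ((j' : ℕ) = j)
      omega
    · rw [h6, mem_nb_ww]
      rintro ⟨-, h⟩
      exact h (show (j' : ℕ) = j' from rfl)
    · rw [h6]; simp [bk, ww]
  · rintro y ⟨h1, h2, h3⟩ z ⟨h1', h2', h3'⟩ hyz
    obtain ⟨p, rfl, hp⟩ := hdiff y h1 h2 h3
    obtain ⟨q, rfl, hq⟩ := hdiff z h1' h2' h3'
    obtain ⟨h5, h6⟩ := hmv p hp
    obtain ⟨h7, h8⟩ := hmv q hq
    rw [h6, h8] at hyz
    have h9 : (⟨(p.1.1, j'), h5⟩ : Bk P) = ⟨(q.1.1, j'), h7⟩ := Sum.inl_injective hyz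
    have h10 : p.1.1 = q.1.1 := by
      have h12 := congrArg (fun s : Bk P => s.1.1) h9
      exact h12
    have h11 : p = q := Subtype.ext (Prod.ext h10 (hp.trans hq.symm))
    rw [h11]

end Pool.Agent.K7.H47.UI
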